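import Mathlib
import Pool.Agent.H39.QT2

set_option autoImplicit false

open Pool.Agent.H39.QT

theorem Pool.Agent.Results.MP_e6ac2b_gt.SepReg.result :
    ∃ (G : Type) (_ : Group G) (_ : TopologicalSpace G),
      (∀ a : G, Continuous fun x => a * x) ∧ (∀ a : G, Continuous fun x => x * a) ∧
      (Continuous fun x : G => x⁻¹) ∧ T1Space G ∧ RegularSpace G ∧
      TopologicalSpace.SeparableSpace G ∧ ¬ CompletelyRegularSpace G := by
  refine ⟨Multiplicative GG, inferInstance, inferInstance, fun a => cont_add a.toAdd,
    fun a => ?_, ?_, inferInstanceAs (T1Space GG), inferInstanceAs (RegularSpace GG),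
    inferInstanceAs (TopologicalSpace.SeparableSpace GG), not_cr⟩
  · simp only [mul_comm _ a]; exact cont_add a.toAdd
  · have : (fun x : Multiplicative GG => x⁻¹) = id :=
      funext fun x => inv_eq_of_mul_eq_one_right (two' x.toAdd)
    rw [this]; exact continuous_id
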